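import Pool.Agent.W622.BK.Stm

set_option autoImplicit false

namespace Pool.Agent.W622.BK

open Module

universe u

/-- the inequality for the data `E`, `j`, from the parts -/
theorem core_bound
    (hALT : S_ALT.{u}) (hMONO : S_MONO.{u}) (hNH : S_NH.{u}) (hNKILL : S_NKILL.{u})
    (hCON : S_CON.{u}) (hKIL : S_KIL.{u}) (hSEC : S_SEC.{u}) (hSURZ : S_SURZ.{u})
    (hSURO : S_SURO.{u}) (hSURS : S_SURS.{u}) (hEXS : S_EXS.{u}) (hEXB : S_EXB.{u})
    (hMAIN : S_MAIN.{u}) (hVAN : S_VAN.{u}) (hDIM : S_DIM.{u}) (hTUR : S_TUR.{u})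
    (k : Type u) [Field k] (E : Type u) [AddCommGroup E] [Module k E] [FiniteDimensional k E]
    (R : Submodule k (E →ₗ[k] E →ₗ[k] k)) (hR : Alt R)
    (h0 : ∀ X : Submodule k (E →ₗ[k] k), Ex R X 0) (n : ℕ) (X : Submodule k (E →ₗ[k] k))
    (hX : D R X (n + 2) = ⊥) :
    2 * (n + 1) * finrank k (Rx R X) ≤ n * (finrank k X) ^ 2 := by
  have hm := hMAIN hSURZ hSURO (hSURS hALT hMONO hNH hNKILL hKIL hSEC)
    (hEXS hALT hMONO hNH hNKILL hCON hKIL hSEC) hEXB k E R hR h0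
  exact hTUR hDIM k E R hR
    (fun X u n h => hVAN k E R hR (fun p => (hEXB k E R p hR).1) hm.2 X u n h) n X hX

theorem Alt_Rj {k : Type u} [Field k] {L : Type u} [LieRing L] [LieAlgebra k L]
    {E : Type u} [AddCommGroup E] [Module k E] [FiniteDimensional k E]
    (j : (E →ₗ[k] k) →ₗ[k] L) : Alt (Rj j) := fun _ hβ e => hβ.1 e

theorem bound
    (hcore : ∀ (k : Type u) [Field k] (E : Type u) [AddCommGroup E] [Module k E]
      [FiniteDimensional k E] (R : Submodule k (E →ₗ[k] E →ₗ[k] k)), Alt R →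
      (∀ X : Submodule k (E →ₗ[k] k), Ex R X 0) → ∀ (n : ℕ) (X : Submodule k (E →ₗ[k] k)),
      D R X (n + 2) = ⊥ → 2 * (n + 1) * finrank k (Rx R X) ≤ n * (finrank k X) ^ 2)
    (hPRJ : S_PRJ.{u}) (hABL : S_ABL.{u}) (hJACA : S_JACA.{u}) (hJAC : S_JAC.{u})
    (hREP : S_REP.{u}) (hTRI : S_TRI.{u}) (hBASE : S_BASE.{u}) (hNZA : S_NZA.{u})
    (hNZB : S_NZB.{u}) (hDALT : S_DALT.{u}) (hNZ : S_NZ.{u}) (hALT : S_ALT.{u})
    (hB2A : S_B2A.{u}) (hB2 : S_B2.{u})
    (hB1 : S_B1.{u}) (hSETUP : S_SETUP.{u})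
    (k : Type u) [Field k] (h2 : (2 : k) ≠ 0) (L : Type u) [LieRing L] [LieAlgebra k L]
    (g : ℕ → Submodule k L) (hg : IsBK k L g) (n : ℕ) (hn : HasCd k L n) :
    (2 * n * betti k L 2 : ℤ) ≤ (n - 1) * (betti k L 1) ^ 2 := by
  obtain ⟨j, pr, hpj, hpl, hrange⟩ := hSETUP k L g hg.graded
  have : FiniteDimensional k (g 1) := hg.graded.finite 1
  have hinj : Function.Injective j := fun a b hab => by
    have := congrArg pr hab
    rwa [hpj, hpj] at this
  have hgen : LieSubalgebra.lieSpan k L (LinearMap.range j : Set L) = ⊤ := by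
    rw [hrange]; exact hg.gen
  have hq : ∀ X : Submodule k (Module.Dual k (g 1) →ₗ[k] k), QuadraticOn k L (X.map j) := by
    intro X
    refine hg.quad _ ?_
    exact le_trans LinearMap.map_le_range hrange.le
  have hqr : QuadraticOn k L (LinearMap.range j) := by
    rw [← Submodule.map_top]; exact hq ⊤
  have hb1 : betti k L 1 = finrank k (Module.Dual k (g 1)) := hB1 k L _ j pr hpj hpl hgen
  have hb2 : betti k L 2 ≤ finrank k (Rj j) := hB2 hB2A k L _ j h2 hinj hgen hqr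
  have hEx : ∀ X : Submodule k (Module.Dual k (g 1) →ₗ[k] k), Ex (Rj j) X 0 := by
    intro X
    refine hBASE k _ (Rj j) X (Alt_Rj j) ?_
    exact hTRI hPRJ hABL (hJAC) hJACA hREP k L _ j X h2 hinj (hq X)
  rcases n with _ | n
  · have h1 : Subsingleton (Coh k L 1) := hn.2 1 Nat.zero_lt_one
    have : betti k L 1 = 0 := finrank_zero_of_subsingleton
    rw [this]; simp
  · have hD : D (Rj j) ⊤ (n + 2) = ⊥ := by
      by_contra hne
      have hnt := hNZ hALT hNZA hNZB hDALT k L _ j pr h2 hpj hpl n hne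
      have hs := hn.2 (n + 2) (by omega)
      exact not_subsingleton _ hs
    have hT := hcore k _ (Rj j) (Alt_Rj j) hEx n ⊤ hD
    have hRx : Rx (Rj j) ⊤ = Rj j := by
      ext r
      exact ⟨fun h => h.1, fun h => ⟨h, fun _ => Submodule.mem_top⟩⟩
    rw [hRx, finrank_top] at hT
    have hfd : finrank k (Module.Dual k (g 1) →ₗ[k] k) = finrank k (Module.Dual k (g 1)) :=
      Subspace.dual_finrank_eq
    rw [hfd, ← hb1] at hT
    have h3 : 2 * (n + 1) * betti k L 2 ≤ n * (betti k L 1) ^ 2 :=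
      le_trans (Nat.mul_le_mul_left _ hb2) hT
    have h4 : ((2 * (n + 1) * betti k L 2 : ℕ) : ℤ) ≤ ((n * (betti k L 1) ^ 2 : ℕ) : ℤ) :=
      Int.ofNat_le.mpr h3
    push_cast at h4 ⊢
    simpa using h4

end Pool.Agent.W622.BK
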