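import Mathlib

/-! # Bloch-Kato Lie algebras: definitions

Graded Lie algebras, quadratic subalgebras, Bloch-Kato Lie algebras, Lie algebra cohomology with
trivial coefficients (Chevalley-Eilenberg cochains), Betti numbers, cohomological dimension. -/

set_option autoImplicit false

namespace Pool.Agent.W622.BK

open Module

universe u

section Coh

variable (k : Type u) [Field k] (L : Type u) [LieRing L] [LieAlgebra k L]

/-- the Chevalley-Eilenberg differential (trivial coefficients) of an alternating `(n+1)`-cochain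
`f`, evaluated at `x₀,…,x_{n+1}`: the sum over `i < j` of
`(-1)^(i+j) f([x_i,x_j], x₀, …, x̂_i, …, x̂_j, …, x_{n+1})`; the pair `i < j` is written `(i, j'+1)`
with `i ≤ j'`. -/
def dCE {n : ℕ} (f : L [⋀^Fin (n + 1)]→ₗ[k] k) (x : Fin (n + 2) → L) : k :=
  ∑ i : Fin (n + 2), ∑ j : Fin (n + 1),
    if (i : ℕ) ≤ (j : ℕ) then
      (-1 : k) ^ ((i : ℕ) + (j : ℕ) + 1) *
        f (Fin.cons ⁅x i, x j.succ⁆ (fun t : Fin n => x (i.succAbove (j.succAbove t))))
    else 0

theorem dCE_add {n : ℕ} (f g : L [⋀^Fin (n + 1)]→ₗ[k] k) (x : Fin (n + 2) → L) :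
    dCE k L (f + g) x = dCE k L f x + dCE k L g x := by
  unfold dCE
  rw [← Finset.sum_add_distrib]
  refine Finset.sum_congr rfl fun i _ => ?_
  rw [← Finset.sum_add_distrib]
  refine Finset.sum_congr rfl fun j _ => ?_
  by_cases hij : (i : ℕ) ≤ (j : ℕ)
  · simp only [if_pos hij, AlternatingMap.add_apply, mul_add]
  · simp only [if_neg hij, add_zero]

theorem dCE_smul {n : ℕ} (c : k) (f : L [⋀^Fin (n + 1)]→ₗ[k] k) (x : Fin (n + 2) → L) :
    dCE k L (c • f) x = c * dCE k L f x := by
  unfold dCE
  rw [Finset.mul_sum]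
  refine Finset.sum_congr rfl fun i _ => ?_
  rw [Finset.mul_sum]
  refine Finset.sum_congr rfl fun j _ => ?_
  by_cases hij : (i : ℕ) ≤ (j : ℕ)
  · simp only [if_pos hij, AlternatingMap.smul_apply, smul_eq_mul]
    ring
  · simp only [if_neg hij, mul_zero]

theorem dCE_zero {n : ℕ} (x : Fin (n + 2) → L) :
    dCE k L (0 : L [⋀^Fin (n + 1)]→ₗ[k] k) x = 0 := by
  have h := dCE_smul k L 0 (0 : L [⋀^Fin (n + 1)]→ₗ[k] k) x
  rw [zero_smul, zero_mul] at h
  exact h

/-- the `n`-cocycles: the alternating `n`-forms `f` on `L` (as functions of `n` variables) with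
`d f = 0`; the differential on `0`-cochains is zero -/
def cocycles : (n : ℕ) → Submodule k ((Fin n → L) → k)
  | 0 => ⊤
  | n + 1 =>
    { carrier := {F | ∃ f : L [⋀^Fin (n + 1)]→ₗ[k] k, (∀ x, F x = f x) ∧ ∀ x, dCE k L f x = 0}
      add_mem' := by
        rintro F G ⟨f, hf, hf'⟩ ⟨g, hg, hg'⟩
        refine ⟨f + g, fun x => ?_, fun x => ?_⟩
        · rw [Pi.add_apply, hf x, hg x, AlternatingMap.add_apply]
        · rw [dCE_add, hf' x, hg' x, add_zero]
      zero_mem' := ⟨0, fun x => by rw [Pi.zero_apply, AlternatingMap.zero_apply],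
        fun x => dCE_zero k L x⟩
      smul_mem' := by
        rintro c F ⟨f, hf, hf'⟩
        refine ⟨c • f, fun x => ?_, fun x => ?_⟩
        · rw [Pi.smul_apply, hf x, AlternatingMap.smul_apply]
        · rw [dCE_smul, hf' x, mul_zero] }

/-- the `n`-coboundaries `d g` -/
def coboundaries : (n : ℕ) → Submodule k ((Fin n → L) → k)
  | 0 => ⊥
  | 1 => ⊥
  | n + 2 =>
    { carrier := {F | ∃ g : L [⋀^Fin (n + 1)]→ₗ[k] k, ∀ x, F x = dCE k L g x}
      add_mem' := by
        rintro F F' ⟨g, hg⟩ ⟨g', hg'⟩
        exact ⟨g + g', fun x => by rw [Pi.add_apply, hg x, hg' x, dCE_add]⟩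
      zero_mem' := ⟨0, fun x => by rw [Pi.zero_apply, dCE_zero]⟩
      smul_mem' := by
        rintro c F ⟨g, hg⟩
        exact ⟨c • g, fun x => by rw [Pi.smul_apply, smul_eq_mul, hg x, dCE_smul]⟩ }

/-- the cohomology space `Hⁿ(L, k)` -/
abbrev Coh (n : ℕ) : Type u :=
  cocycles k L n ⧸ (coboundaries k L n).comap (cocycles k L n).subtype

/-- the `n`-th Betti number `dim Hⁿ(L, k)` -/
noncomputable def betti (n : ℕ) : ℕ := finrank k (Coh k L n)

/-- the cohomological dimension of `L` is `n`: the largest `m` with `Hᵐ(L, k) ≠ 0` is `n` -/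
def HasCd (n : ℕ) : Prop :=
  Nontrivial (Coh k L n) ∧ ∀ m, n < m → Subsingleton (Coh k L m)

end Coh

section Graded

variable (k : Type u) [Field k] (L : Type u) [LieRing L] [LieAlgebra k L]

/-- a grading of the Lie algebra `L` by the positive integers, with finite-dimensional pieces -/
structure IsGraded (g : ℕ → Submodule k L) : Prop where
  zero : g 0 = ⊥
  internal : DirectSum.IsInternal g
  lie_mem : ∀ i j x y, x ∈ g i → y ∈ g j → ⁅x, y⁆ ∈ g (i + j)
  finite : ∀ i, FiniteDimensional k (g i)

/-- the homomorphism from the free Lie algebra on `Fin m` to `L` given by a family of elements -/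
noncomputable def freeTo {m : ℕ} (v : Fin m → L) : FreeLieAlgebra k (Fin m) →ₗ⁅k⁆ L :=
  FreeLieAlgebra.lift k v

/-- the elements of degree two of the free Lie algebra on `Fin m`: the span of the brackets of two
generators -/
noncomputable def degTwo (m : ℕ) : Submodule k (FreeLieAlgebra k (Fin m)) :=
  Submodule.span k (Set.range fun p : Fin m × Fin m =>
    ⁅FreeLieAlgebra.of k p.1, FreeLieAlgebra.of k p.2⁆)

/-- the subalgebra of `L` generated by the finite-dimensional subspace `X` is quadratic: for a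
basis of `X`, the kernel of the homomorphism from the free Lie algebra on this basis is generated,
as an ideal, by elements of degree two -/
def QuadraticOn (X : Submodule k L) : Prop :=
  ∃ (m : ℕ) (b : Basis (Fin m) k X),
    (freeTo k L (fun i => (b i : L))).ker ≤
      LieSubmodule.lieSpan k (FreeLieAlgebra k (Fin m))
        {r : FreeLieAlgebra k (Fin m) | r ∈ degTwo k m ∧ freeTo k L (fun i => (b i : L)) r = 0}

/-- `L`, graded by `g`, is a Bloch-Kato Lie algebra: it is generated by `g 1` and all subalgebras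
generated by subspaces of `g 1` (also `L` itself) are quadratic -/
structure IsBK (g : ℕ → Submodule k L) : Prop where
  graded : IsGraded k L g
  gen : LieSubalgebra.lieSpan k L (g 1 : Set L) = ⊤
  quad : ∀ X : Submodule k L, X ≤ g 1 → QuadraticOn k L X

end Graded

end Pool.Agent.W622.BK
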