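import Pool.Agent.W622.BK.Defs

/-! # Bloch-Kato Lie algebras: statements of the parts of the proof -/

set_option autoImplicit false

namespace Pool.Agent.W622.BK

open Module

universe u

section Core

variable (k : Type u) [Field k] (E : Type u) [AddCommGroup E] [Module k E]

/-- `n`-linear forms on `E` -/
abbrev G (n : ℕ) : Type u := MultilinearMap k (fun _ : Fin n => E) k

/-- currying of the first variable: `cur ω e = ω(e, …)` -/
noncomputable def cur {n : ℕ} : G k E (n + 1) ≃ₗ[k] (E →ₗ[k] G k E n) :=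
  multilinearCurryLeftEquiv k (fun _ : Fin (n + 1) => E) k

/-- the value of a form without variables -/
noncomputable def ev0 : G k E 0 ≃ₗ[k] k :=
  (MultilinearMap.constLinearEquivOfIsEmpty (R := k) (S := k) (M₁ := fun _ : Fin 0 => E)
    (M₂ := k)).symm

/-- `cc ω e e' = ω(e, e', …)` -/
noncomputable def cc {n : ℕ} (ω : G k E (n + 2)) : E →ₗ[k] E →ₗ[k] G k E n :=
  (cur k E).toLinearMap ∘ₗ (cur k E ω)

/-- a form of one variable as a linear functional -/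
noncomputable def one (ω : G k E 1) : E →ₗ[k] k := (ev0 k E).toLinearMap ∘ₗ (cur k E ω)

variable {k E}

/-- the bilinear map `T` has values in `R`: all functionals of it belong to `R` -/
def InR (R : Submodule k (E →ₗ[k] E →ₗ[k] k)) {F : Type u} [AddCommGroup F] [Module k F]
    (T : E →ₗ[k] E →ₗ[k] F) : Prop :=
  ∀ φ : F →ₗ[k] k, T.compr₂ φ ∈ R

/-- the forms of `R` are alternating -/
def Alt (R : Submodule k (E →ₗ[k] E →ₗ[k] k)) : Prop := ∀ β ∈ R, ∀ e, β e e = 0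

/-- the space `D_n(X)`: `n`-linear forms `ω` with all variables in `X` (a space of functionals) and
`ω(·,·,e₃,…) ∈ R` for any two neighbouring variables -/
noncomputable def D (R : Submodule k (E →ₗ[k] E →ₗ[k] k)) (X : Submodule k (E →ₗ[k] k)) :
    (n : ℕ) → Submodule k (G k E n)
  | 0 => ⊤
  | 1 =>
    { carrier := {ω | one k E ω ∈ X}
      add_mem' := by
        intro a b ha hb
        have h : one k E (a + b) = one k E a + one k E b := by
          unfold one; rw [map_add, LinearMap.comp_add]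
        show one k E (a + b) ∈ X
        rw [h]; exact X.add_mem ha hb
      zero_mem' := by
        have h : one k E (0 : G k E 1) = 0 := by
          unfold one; rw [map_zero, LinearMap.comp_zero]
        show one k E (0 : G k E 1) ∈ X
        rw [h]; exact X.zero_mem
      smul_mem' := by
        intro c a ha
        have h : one k E (c • a) = c • one k E a := by
          unfold one; rw [map_smul, LinearMap.comp_smul]
        show one k E (c • a) ∈ X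
        rw [h]; exact X.smul_mem c ha }
  | n + 2 =>
    { carrier := {ω | (∀ e, cur k E ω e ∈ D R X (n + 1)) ∧ InR R (cc k E ω)}
      add_mem' := by
        intro a b ha hb
        refine ⟨fun e => ?_, fun φ => ?_⟩
        · rw [map_add, LinearMap.add_apply]; exact Submodule.add_mem _ (ha.1 e) (hb.1 e)
        · have h : (cc k E (a + b)).compr₂ φ = (cc k E a).compr₂ φ + (cc k E b).compr₂ φ := by
            ext e e'
            simp only [cc, LinearMap.compr₂_apply, LinearMap.comp_apply, LinearMap.add_apply,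
              LinearEquiv.coe_coe, map_add]
          rw [h]; exact R.add_mem (ha.2 φ) (hb.2 φ)
      zero_mem' := by
        refine ⟨fun e => ?_, fun φ => ?_⟩
        · rw [map_zero, LinearMap.zero_apply]; exact Submodule.zero_mem _
        · have h : (cc k E (0 : G k E (n + 2))).compr₂ φ = 0 := by
            ext e e'
            simp only [cc, LinearMap.compr₂_apply, LinearMap.comp_apply, LinearMap.zero_apply,
              map_zero]
          rw [h]; exact R.zero_mem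
      smul_mem' := by
        intro c a ha
        refine ⟨fun e => ?_, fun φ => ?_⟩
        · rw [map_smul, LinearMap.smul_apply]; exact Submodule.smul_mem _ c (ha.1 e)
        · have h : (cc k E (c • a)).compr₂ φ = c • (cc k E a).compr₂ φ := by
            ext e e'
            simp only [cc, LinearMap.compr₂_apply, LinearMap.comp_apply, LinearMap.smul_apply,
              LinearEquiv.coe_coe, map_smul]
          rw [h]; exact R.smul_mem c (ha.2 φ) }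

/-- `R_X`: the forms of `R` with both variables in `X` -/
def Rx (R : Submodule k (E →ₗ[k] E →ₗ[k] k)) (X : Submodule k (E →ₗ[k] k)) :
    Submodule k (E →ₗ[k] E →ₗ[k] k) where
  carrier := {r | r ∈ R ∧ ∀ e, r e ∈ X}
  add_mem' := fun {a b} ha hb => ⟨R.add_mem ha.1 hb.1, fun e => by
    rw [LinearMap.add_apply]; exact X.add_mem (ha.2 e) (hb.2 e)⟩
  zero_mem' := ⟨R.zero_mem, fun e => by rw [LinearMap.zero_apply]; exact X.zero_mem⟩
  smul_mem' := fun c a ha => ⟨R.smul_mem c ha.1, fun e => by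
    rw [LinearMap.smul_apply]; exact X.smul_mem c (ha.2 e)⟩

/-- `N(X,u) = {r(u,·) : r ∈ R_X}` -/
def Nn (R : Submodule k (E →ₗ[k] E →ₗ[k] k)) (X : Submodule k (E →ₗ[k] k)) (u : E) :
    Submodule k (E →ₗ[k] k) :=
  (Rx R X).map (LinearMap.applyₗ u)

/-- `H(X,u) = {f ∈ X : f u = 0}` -/
def Hh (X : Submodule k (E →ₗ[k] k)) (u : E) : Submodule k (E →ₗ[k] k) :=
  X ⊓ LinearMap.ker (LinearMap.applyₗ u : (E →ₗ[k] k) →ₗ[k] k)

/-- contraction with `u` maps `D_{n+1}(X)` onto `D_n(N(X,u))` -/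
def Sur (R : Submodule k (E →ₗ[k] E →ₗ[k] k)) (X : Submodule k (E →ₗ[k] k)) (u : E) (n : ℕ) :
    Prop :=
  ∀ η ∈ D R (Nn R X u) n, ∃ ω ∈ D R X (n + 1), cur k E ω u = η

/-- the trilinear function `t` lies in `R⊗V + V⊗R` -/
def Cyc (R : Submodule k (E →ₗ[k] E →ₗ[k] k)) (t : E → E → E → k) : Prop :=
  ∃ τ₁ τ₂ : E →ₗ[k] E →ₗ[k] E →ₗ[k] k, (∀ a e e', t a e e' = τ₁ a e e' + τ₂ a e e') ∧
    (∀ e', τ₁.compr₂ (LinearMap.applyₗ e') ∈ R) ∧ ∀ a, τ₂ a ∈ R

/-- exactness of `D_{p+2}(X)⊗V → D_{p+1}(X)⊗B₂ → D_p(X)⊗B₃` -/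
def Ex (R : Submodule k (E →ₗ[k] E →ₗ[k] k)) (X : Submodule k (E →ₗ[k] k)) (p : ℕ) : Prop :=
  ∀ T : E →ₗ[k] E →ₗ[k] G k E (p + 1), (∀ e e', T e e' ∈ D R X (p + 1)) →
    (∀ φ : G k E p →ₗ[k] k, Cyc R (fun a e e' => φ (cur k E (T e e') a))) →
    ∃ (S : E →ₗ[k] G k E (p + 2)) (P : E →ₗ[k] E →ₗ[k] G k E (p + 1)),
      (∀ e, S e ∈ D R X (p + 2)) ∧ (∀ e e', P e e' ∈ D R X (p + 1)) ∧ InR R P ∧
      ∀ e e', T e e' = cur k E (S e') e + P e e'

/-- the trilinear function `t` lies in `R_X⊗V + X⊗R` -/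
def Dec (R : Submodule k (E →ₗ[k] E →ₗ[k] k)) (X : Submodule k (E →ₗ[k] k))
    (t : E → E → E → k) : Prop :=
  ∃ s p : E →ₗ[k] E →ₗ[k] E →ₗ[k] k, (∀ a e e', t a e e' = s a e e' + p a e e') ∧
    (∀ e', s.compr₂ (LinearMap.applyₗ e') ∈ Rx R X) ∧ (∀ a, p a ∈ R) ∧
    ∀ e e', (p.flip e).flip e' ∈ X

end Core

section LiePart

variable {k : Type u} [Field k] {L : Type u} [LieRing L] [LieAlgebra k L]
variable {E : Type u} [AddCommGroup E] [Module k E] [FiniteDimensional k E]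

/-- the bracket of the tensor `β`: `Br β = Σ_i ⁅j(bⁱ), j(β(b_i))⁆` for the basis `b` of `E` -/
noncomputable def Br (j : (E →ₗ[k] k) →ₗ[k] L) (β : E →ₗ[k] E →ₗ[k] k) : L :=
  ∑ i, ⁅j ((finBasis k E).coord i), j (β (finBasis k E i))⁆

/-- `Σ_i ⁅Br(κ(·,·,b_i)), j(bⁱ)⁆` -/
noncomputable def Br3 (j : (E →ₗ[k] k) →ₗ[k] L) (κ : E →ₗ[k] E →ₗ[k] E →ₗ[k] k) : L :=
  ∑ i, ⁅Br j (κ.compr₂ (LinearMap.applyₗ (finBasis k E i))), j ((finBasis k E).coord i)⁆

/-- the relations of degree two: alternating tensors whose bracket is zero -/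
noncomputable def Rj (j : (E →ₗ[k] k) →ₗ[k] L) : Submodule k (E →ₗ[k] E →ₗ[k] k) where
  carrier := {β | (∀ e, β e e = 0) ∧ Br j β = 0}
  add_mem' := by
    rintro a b ⟨ha, ha'⟩ ⟨hb, hb'⟩
    refine ⟨fun e => by rw [LinearMap.add_apply, LinearMap.add_apply, ha, hb, add_zero], ?_⟩
    have h : Br j (a + b) = Br j a + Br j b := by
      unfold Br
      rw [← Finset.sum_add_distrib]
      refine Finset.sum_congr rfl fun i _ => ?_
      rw [LinearMap.add_apply, map_add, lie_add]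
    rw [h, ha', hb', add_zero]
  zero_mem' := by
    refine ⟨fun e => by rw [LinearMap.zero_apply, LinearMap.zero_apply], ?_⟩
    unfold Br
    exact Finset.sum_eq_zero fun i _ => by rw [LinearMap.zero_apply, map_zero, lie_zero]
  smul_mem' := by
    rintro c a ⟨ha, ha'⟩
    refine ⟨fun e => by rw [LinearMap.smul_apply, LinearMap.smul_apply, ha, smul_zero], ?_⟩
    have h : Br j (c • a) = c • Br j a := by
      unfold Br
      rw [Finset.smul_sum]
      refine Finset.sum_congr rfl fun i _ => ?_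
      rw [LinearMap.smul_apply, map_smul, lie_smul]
    rw [h, ha', smul_zero]

end LiePart

/-! ## Core: multilinear algebra -/

def S_ALT : Prop := ∀ (k : Type u) [Field k] (E : Type u) [AddCommGroup E] [Module k E]
  (R : Submodule k (E →ₗ[k] E →ₗ[k] k)) (X : Submodule k (E →ₗ[k] k)) (n : ℕ)
  (ω : G k E (n + 2)), Alt R → ω ∈ D R X (n + 2) →
    (∀ e, cur k E (cur k E ω e) e = 0) ∧
    (∀ e e', cur k E (cur k E ω e) e' = - cur k E (cur k E ω e') e)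

def S_MONO : Prop := ∀ (k : Type u) [Field k] (E : Type u) [AddCommGroup E] [Module k E]
  (R : Submodule k (E →ₗ[k] E →ₗ[k] k)) (X Y : Submodule k (E →ₗ[k] k)) (n : ℕ), X ≤ Y →
    D R X n ≤ D R Y n

def S_NH : Prop := ∀ (k : Type u) [Field k] (E : Type u) [AddCommGroup E] [Module k E]
  (R : Submodule k (E →ₗ[k] E →ₗ[k] k)) (X : Submodule k (E →ₗ[k] k)) (u : E), Alt R →
    Nn R X u ≤ Hh X u

def S_NKILL : Prop := S_ALT.{u} → ∀ (k : Type u) [Field k] (E : Type u) [AddCommGroup E] [Module k E]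
  (R : Submodule k (E →ₗ[k] E →ₗ[k] k)) (X : Submodule k (E →ₗ[k] k)) (u : E) (n : ℕ)
  (η : G k E (n + 1)), Alt R → η ∈ D R (Hh X u) (n + 1) → cur k E η u = 0

def S_CON : Prop := S_ALT.{u} → ∀ (k : Type u) [Field k] (E : Type u) [AddCommGroup E] [Module k E]
  (R : Submodule k (E →ₗ[k] E →ₗ[k] k)) (X : Submodule k (E →ₗ[k] k)) (u : E) (n : ℕ)
  (ω : G k E (n + 2)), Alt R → ω ∈ D R X (n + 2) → cur k E ω u ∈ D R (Nn R X u) (n + 1)

def S_KIL : Prop := S_ALT.{u} → ∀ (k : Type u) [Field k] (E : Type u) [AddCommGroup E] [Module k E]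
  (R : Submodule k (E →ₗ[k] E →ₗ[k] k)) (X : Submodule k (E →ₗ[k] k)) (u : E) (n : ℕ)
  (ω : G k E (n + 1)), Alt R → ω ∈ D R X (n + 1) → cur k E ω u = 0 → ω ∈ D R (Hh X u) (n + 1)

def S_SEC : Prop := ∀ (k : Type u) [Field k] (E : Type u) [AddCommGroup E] [Module k E]
  (R : Submodule k (E →ₗ[k] E →ₗ[k] k)) (X : Submodule k (E →ₗ[k] k)) (u : E) (n : ℕ),
    Sur R X u n → ∃ σ : G k E n →ₗ[k] G k E (n + 1), ∀ η ∈ D R (Nn R X u) n,
      σ η ∈ D R X (n + 1) ∧ cur k E (σ η) u = η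

def S_SURZ : Prop := ∀ (k : Type u) [Field k] (E : Type u) [AddCommGroup E] [Module k E]
  (R : Submodule k (E →ₗ[k] E →ₗ[k] k)) (X : Submodule k (E →ₗ[k] k)) (u : E)
  (x : E →ₗ[k] k), x ∈ X → x u = 1 → Sur R X u 0

def S_SURO : Prop := ∀ (k : Type u) [Field k] (E : Type u) [AddCommGroup E] [Module k E]
  (R : Submodule k (E →ₗ[k] E →ₗ[k] k)) (X : Submodule k (E →ₗ[k] k)) (u : E), Sur R X u 1

def S_SURS : Prop := S_ALT.{u} → S_MONO.{u} → S_NH.{u} → S_NKILL.{u} → S_KIL.{u} → S_SEC.{u} →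
  ∀ (k : Type u) [Field k] (E : Type u) [AddCommGroup E] [Module k E]
  (R : Submodule k (E →ₗ[k] E →ₗ[k] k)) (X : Submodule k (E →ₗ[k] k)) (u : E)
  (x : E →ₗ[k] k) (p : ℕ), Alt R → x ∈ X → x u = 1 → Sur R X u p → Sur R X u (p + 1) →
    Ex R (Hh X u) p → Sur R X u (p + 2)

def S_EXS : Prop := S_ALT.{u} → S_MONO.{u} → S_NH.{u} → S_NKILL.{u} → S_CON.{u} → S_KIL.{u} →
  S_SEC.{u} → ∀ (k : Type u) [Field k] (E : Type u) [AddCommGroup E] [Module k E]
  (R : Submodule k (E →ₗ[k] E →ₗ[k] k)) (X : Submodule k (E →ₗ[k] k)) (u : E)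
  (p : ℕ), Alt R → Ex R (Nn R X u) p → Sur R X u (p + 1) → Sur R X u (p + 2) →
    Ex R (Hh X u) (p + 1) → Ex R X (p + 1)

def S_EXB : Prop := ∀ (k : Type u) [Field k] (E : Type u) [AddCommGroup E] [Module k E]
  (R : Submodule k (E →ₗ[k] E →ₗ[k] k)) (p : ℕ), Alt R →
    D R (⊥ : Submodule k (E →ₗ[k] k)) (p + 1) = ⊥ ∧ Ex R (⊥ : Submodule k (E →ₗ[k] k)) p

def S_MAIN : Prop := S_SURZ.{u} → S_SURO.{u} →
  (∀ (k : Type u) [Field k] (E : Type u) [AddCommGroup E] [Module k E]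
    (R : Submodule k (E →ₗ[k] E →ₗ[k] k)) (X : Submodule k (E →ₗ[k] k)) (u : E)
    (x : E →ₗ[k] k) (p : ℕ), Alt R → x ∈ X → x u = 1 → Sur R X u p → Sur R X u (p + 1) →
      Ex R (Hh X u) p → Sur R X u (p + 2)) →
  (∀ (k : Type u) [Field k] (E : Type u) [AddCommGroup E] [Module k E]
    (R : Submodule k (E →ₗ[k] E →ₗ[k] k)) (X : Submodule k (E →ₗ[k] k)) (u : E)
    (p : ℕ), Alt R → Ex R (Nn R X u) p → Sur R X u (p + 1) → Sur R X u (p + 2) →
      Ex R (Hh X u) (p + 1) → Ex R X (p + 1)) →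
  S_EXB.{u} →
  ∀ (k : Type u) [Field k] (E : Type u) [AddCommGroup E] [Module k E] [FiniteDimensional k E]
    (R : Submodule k (E →ₗ[k] E →ₗ[k] k)), Alt R →
    (∀ X : Submodule k (E →ₗ[k] k), Ex R X 0) →
    (∀ (X : Submodule k (E →ₗ[k] k)) (p : ℕ), Ex R X p) ∧
    ∀ (X : Submodule k (E →ₗ[k] k)) (u : E) (x : E →ₗ[k] k), x ∈ X → x u = 1 →
      ∀ n, Sur R X u n

def S_VAN : Prop := ∀ (k : Type u) [Field k] (E : Type u) [AddCommGroup E] [Module k E]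
  (R : Submodule k (E →ₗ[k] E →ₗ[k] k)), Alt R →
  (∀ (p : ℕ), D R (⊥ : Submodule k (E →ₗ[k] k)) (p + 1) = ⊥) →
  (∀ (X : Submodule k (E →ₗ[k] k)) (u : E) (x : E →ₗ[k] k), x ∈ X → x u = 1 →
      ∀ n, Sur R X u n) →
  ∀ (X : Submodule k (E →ₗ[k] k)) (u : E) (n : ℕ), D R X (n + 2) = ⊥ →
    D R (Nn R X u) (n + 1) = ⊥

def S_DIM : Prop := ∀ (k : Type u) [Field k] (E : Type u) [AddCommGroup E] [Module k E]
  [FiniteDimensional k E]
  (R : Submodule k (E →ₗ[k] E →ₗ[k] k)), Alt R → ∀ (X : Submodule k (E →ₗ[k] k)) (u : E),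
  (∀ v, finrank k (Nn R X v) ≤ finrank k (Nn R X u)) →
  finrank k (Rx R X) ≤ finrank k (Rx R (Nn R X u)) +
    (finrank k X - finrank k (Nn R X u)) * finrank k (Nn R X u)

def S_TUR : Prop := S_DIM.{u} → ∀ (k : Type u) [Field k] (E : Type u) [AddCommGroup E]
  [Module k E] [FiniteDimensional k E] (R : Submodule k (E →ₗ[k] E →ₗ[k] k)), Alt R →
  (∀ (X : Submodule k (E →ₗ[k] k)) (u : E) (n : ℕ), D R X (n + 2) = ⊥ →
    D R (Nn R X u) (n + 1) = ⊥) →
  ∀ (n : ℕ) (X : Submodule k (E →ₗ[k] k)), D R X (n + 2) = ⊥ →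
    2 * (n + 1) * finrank k (Rx R X) ≤ n * (finrank k X) ^ 2

/-! ## Base case: trilinear forms and the Lie algebra in degree three -/

def S_PRJ : Prop := ∀ (k : Type u) [Field k] (E : Type u) [AddCommGroup E] [Module k E]
  [FiniteDimensional k E] (X : Submodule k (E →ₗ[k] k)),
  ∃ π : E →ₗ[k] E, (∀ f ∈ X, f ∘ₗ π = f) ∧ (∀ f : E →ₗ[k] k, f ∘ₗ π ∈ X) ∧ ∀ e, π (π e) = π e

def S_ABL : Prop := ∀ (k : Type u) [Field k] (E : Type u) [AddCommGroup E] [Module k E]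
  (π : E →ₗ[k] E) (τ τ₁ τ₂ : E →ₗ[k] E →ₗ[k] E →ₗ[k] k), (2 : k) ≠ 0 →
  (∀ e, π (π e) = π e) → (∀ a e e', τ (π a) e e' = τ a e e') →
  (∀ a e e', τ a e e' = τ₁ a e e' + τ₂ a e e') → (∀ a e', τ₁ a a e' = 0) →
  (∀ a e, τ₂ a e e = 0) →
  ∃ σ₁ σ₂ : E →ₗ[k] E →ₗ[k] E →ₗ[k] k, (∀ a e e', τ a e e' = σ₁ a e e' + σ₂ a e e') ∧
    (∀ a e', σ₁ a a e' = 0) ∧ (∀ a e e', σ₁ (π a) e e' = σ₁ a e e') ∧
    (∀ a e, σ₂ a e e = 0) ∧ (∀ a e e', σ₂ (π a) e e' = σ₂ a e e')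

def S_JACA : Prop := ∀ (k : Type u) [Field k] (L : Type u) [LieRing L] [LieAlgebra k L]
  (E : Type u) [AddCommGroup E] [Module k E] [FiniteDimensional k E]
  (j : (E →ₗ[k] k) →ₗ[k] L) (α : E →ₗ[k] E →ₗ[k] E →ₗ[k] k), (∀ a e', α a a e' = 0) →
  (∀ a e, α a e e = 0) → Br3 j α = 0

def S_JAC : Prop := S_JACA.{u} → ∀ (k : Type u) [Field k] (L : Type u) [LieRing L]
  [LieAlgebra k L] (E : Type u) [AddCommGroup E] [Module k E] [FiniteDimensional k E]
  (j : (E →ₗ[k] k) →ₗ[k] L) (κ : E →ₗ[k] E →ₗ[k] E →ₗ[k] k), (∀ a e', κ a a e' = 0) →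
  Cyc (Rj j) (fun a e e' => κ a e e' - κ e e' a) → Br3 j κ = 0

def S_REP : Prop := ∀ (k : Type u) [Field k] (L : Type u) [LieRing L] [LieAlgebra k L]
  (E : Type u) [AddCommGroup E] [Module k E] [FiniteDimensional k E]
  (j : (E →ₗ[k] k) →ₗ[k] L) (X : Submodule k (E →ₗ[k] k)), (2 : k) ≠ 0 →
  Function.Injective j → QuadraticOn k L (X.map j) →
  ∀ κ : E →ₗ[k] E →ₗ[k] E →ₗ[k] k, (∀ a e', κ a a e' = 0) → (∀ a e, κ a e ∈ X) →
    (∀ a e', (κ a).flip e' ∈ X) → (∀ e e', (κ.flip e).flip e' ∈ X) → Br3 j κ = 0 →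
    Dec (Rj j) X (fun a e e' => κ a e e' - κ e e' a)

def S_TRI : Prop := S_PRJ.{u} → S_ABL.{u} → S_JAC.{u} → S_JACA.{u} → S_REP.{u} →
  ∀ (k : Type u) [Field k] (L : Type u) [LieRing L] [LieAlgebra k L]
  (E : Type u) [AddCommGroup E] [Module k E] [FiniteDimensional k E]
  (j : (E →ₗ[k] k) →ₗ[k] L) (X : Submodule k (E →ₗ[k] k)), (2 : k) ≠ 0 →
  Function.Injective j → QuadraticOn k L (X.map j) →
  ∀ τ : E →ₗ[k] E →ₗ[k] E →ₗ[k] k, (∀ e e', (τ.flip e).flip e' ∈ X) →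
    Cyc (Rj j) (fun a e e' => τ a e e') → Dec (Rj j) X (fun a e e' => τ a e e')

def S_BASE : Prop := ∀ (k : Type u) [Field k] (E : Type u) [AddCommGroup E] [Module k E]
  [FiniteDimensional k E] (R : Submodule k (E →ₗ[k] E →ₗ[k] k)) (X : Submodule k (E →ₗ[k] k)),
  Alt R →
  (∀ τ : E →ₗ[k] E →ₗ[k] E →ₗ[k] k, (∀ e e', (τ.flip e).flip e' ∈ X) →
    Cyc R (fun a e e' => τ a e e') → Dec R X (fun a e e' => τ a e e')) → Ex R X 0

/-! ## Cohomology -/

/-- the combinatorial identity behind `⟨d g, ω⟩ = 0` -/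
def S_NZA : Prop := ∀ (k : Type u) [Field k] (N m : ℕ) (c : (Fin (m + 2) → Fin N) → k)
  (h : Fin N → Fin N → (Fin m → Fin N) → k),
  (∀ v, ¬ Function.Injective v → c v = 0) →
  (∀ (v : Fin (m + 2) → Fin N) (σ : Equiv.Perm (Fin (m + 2))),
    c (v ∘ σ) = ((Equiv.Perm.sign σ : ℤ) : k) * c v) →
  (∀ p q J, h q p J = - h p q J) →
  (∀ p q J (σ : Equiv.Perm (Fin m)), h p q (J ∘ σ) = ((Equiv.Perm.sign σ : ℤ) : k) * h p q J) →
  ∑ I : Fin (m + 2) ↪o Fin N, ∑ i : Fin (m + 2), ∑ j : Fin (m + 1),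
    (if (i : ℕ) ≤ (j : ℕ) then
      c I * ((-1 : k) ^ ((i : ℕ) + (j : ℕ) + 1) *
        h (I i) (I j.succ) (fun t : Fin m => I (i.succAbove (j.succAbove t))))
    else 0) =
  - ∑ J : Fin m ↪o Fin N, ∑ p : Fin N, ∑ q : Fin N,
    (if p < q then c (Fin.cons p (Fin.cons q J : Fin (m + 1) → Fin N)) * h p q J else 0)

/-- expansion of an alternating form in coordinates: `ω(u₁,…,u_m) = Σ_I ω(b_I) det(bᴵ(u))` -/
def S_NZB : Prop := ∀ (k : Type u) [Field k] (E : Type u) [AddCommGroup E] [Module k E]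
  (N m : ℕ) (b : Basis (Fin N) k E) (ω : E [⋀^Fin m]→ₗ[k] k) (w : Fin m → E),
  ω w = ∑ I : Fin m ↪o Fin N, ω (fun t => b (I t)) *
    (Matrix.of fun s t : Fin m => b.coord (I s) (w t)).det

/-- the forms in `D_n` are alternating -/
def S_DALT : Prop := S_ALT.{u} → ∀ (k : Type u) [Field k] (E : Type u) [AddCommGroup E] [Module k E]
  (R : Submodule k (E →ₗ[k] E →ₗ[k] k)) (X : Submodule k (E →ₗ[k] k)) (n : ℕ)
  (ω : G k E n), Alt R → ω ∈ D R X n → ∃ ω' : E [⋀^Fin n]→ₗ[k] k, ∀ v, ω' v = ω v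

def S_NZ : Prop := S_ALT.{u} → S_NZA.{u} → S_NZB.{u} → S_DALT.{u} → ∀ (k : Type u) [Field k] (L : Type u)
  [LieRing L] [LieAlgebra k L] (E : Type u) [AddCommGroup E] [Module k E]
  [FiniteDimensional k E] (j : (E →ₗ[k] k) →ₗ[k] L) (pr : L →ₗ[k] (E →ₗ[k] k)), (2 : k) ≠ 0 →
  (∀ f, pr (j f) = f) → (∀ x y : L, pr ⁅x, y⁆ = 0) → ∀ n : ℕ, D (Rj j) ⊤ (n + 2) ≠ ⊥ →
    Nontrivial (Coh k L (n + 2))

/-- a 2-cocycle that vanishes on the relations is a coboundary -/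
def S_B2A : Prop := ∀ (k : Type u) [Field k] (L : Type u) [LieRing L] [LieAlgebra k L]
  (X : Submodule k L), LieSubalgebra.lieSpan k L (X : Set L) = ⊤ → QuadraticOn k L X →
  ∀ f : L →ₗ[k] L →ₗ[k] k, (∀ x, f x x = 0) →
  (∀ x y z, f ⁅x, y⁆ z + f ⁅y, z⁆ x + f ⁅z, x⁆ y = 0) →
  (∀ (m : ℕ) (v : Fin m → L) (c : Fin m → Fin m → k), (∀ i, v i ∈ X) →
    ∑ i, ∑ i', c i i' • ⁅v i, v i'⁆ = 0 → ∑ i, ∑ i', c i i' * f (v i) (v i') = 0) →
  ∃ g : L →ₗ[k] k, ∀ x y, f x y = g ⁅x, y⁆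

def S_B2 : Prop := S_B2A.{u} → ∀ (k : Type u) [Field k] (L : Type u)
  [LieRing L] [LieAlgebra k L] (E : Type u) [AddCommGroup E] [Module k E]
  [FiniteDimensional k E] (j : (E →ₗ[k] k) →ₗ[k] L), (2 : k) ≠ 0 → Function.Injective j →
  LieSubalgebra.lieSpan k L (LinearMap.range j : Set L) = ⊤ →
  QuadraticOn k L (LinearMap.range j) → betti k L 2 ≤ finrank k (Rj j)

def S_B1 : Prop := ∀ (k : Type u) [Field k] (L : Type u)
  [LieRing L] [LieAlgebra k L] (E : Type u) [AddCommGroup E] [Module k E]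
  [FiniteDimensional k E] (j : (E →ₗ[k] k) →ₗ[k] L) (pr : L →ₗ[k] (E →ₗ[k] k)),
  (∀ f, pr (j f) = f) → (∀ x y : L, pr ⁅x, y⁆ = 0) →
  LieSubalgebra.lieSpan k L (LinearMap.range j : Set L) = ⊤ →
  betti k L 1 = finrank k E

/-- the data `E`, `j`, `pr` of a graded Lie algebra -/
def S_SETUP : Prop := ∀ (k : Type u) [Field k] (L : Type u) [LieRing L] [LieAlgebra k L]
  (g : ℕ → Submodule k L), IsGraded k L g →
  ∃ (j : (Module.Dual k (g 1) →ₗ[k] k) →ₗ[k] L) (pr : L →ₗ[k] (Module.Dual k (g 1) →ₗ[k] k)),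
    (∀ f, pr (j f) = f) ∧ (∀ x y : L, pr ⁅x, y⁆ = 0) ∧ LinearMap.range j = g 1

end Pool.Agent.W622.BK
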